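import Pool.Agent.Q96.DV.Op

/-!
A one-parameter deformation and its kernel chain.
-/

set_option autoImplicit false

namespace Q96.DV

open Matrix Polynomial

/-! ### Periodicity -/

lemma per_mul {α : Type*} {f : ℤ → α} {N : ℤ} (hf : ∀ i, f (i + N) = f i) (k i : ℤ) :
    f (i + k * N) = f i :=
  Function.Periodic.int_mul (f := f) (c := N) hf k i

lemma per_mod {α : Type*} {f : ℤ → α} {N : ℤ} (hf : ∀ i, f (i + N) = f i) (i : ℤ) :
    f (i % N) = f i := by
  have h := per_mul hf (i / N) (i % N)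
  have h2 : i % N + i / N * N = i := by
    rw [mul_comm]; exact Int.emod_add_mul_ediv i N
  rw [h2] at h
  exact h.symm

/-! ### Differences of three-term rows -/

/-- the five-term row `E_{i+1} - E_{i-1}` -/
def dif (l m n : ℤ → ℝ) (i : ℤ) : Row :=
  ![-l (i - 1), -m (i - 1), l (i + 1) - n (i - 1), m (i + 1), n (i + 1)]

lemma base_od {l m n ρ : ℤ → ℝ} {D : ℤ → Row} (hρ : ∀ i, ρ i ≠ 0)
    (hD : ∀ i, ρ i • D i = dif l m n i) {f f' : ℤ → ℝ} {w : ℝ}
    (h : ∀ i, m i * f' i = w * (l i * f (i - 1) + n i * f (i + 1))) :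
    od D f' = w • ev D f := by
  funext i
  have hk : ∀ k, ρ i * D i k = dif l m n i k := fun k => congrFun (hD i) k
  have h0 := hk 0
  have h1 := hk 1
  have h2 := hk 2
  have h3 := hk 3
  have h4 := hk 4
  simp only [dif, Matrix.cons_val] at h0 h1 h2 h3 h4
  have g1 := h (i - 1)
  have g2 := h (i + 1)
  have e1 : i - 1 - 1 = i - 2 := by ring
  have e2 : i - 1 + 1 = i := by ring
  have e3 : i + 1 - 1 = i := by ring
  have e4 : i + 1 + 1 = i + 2 := by ring
  rw [e1, e2] at g1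
  rw [e3, e4] at g2
  apply mul_left_cancel₀ (hρ i)
  show ρ i * (D i 1 * f' (i - 1) + D i 3 * f' (i + 1)) =
    ρ i * (w * (D i 0 * f (i - 2) + D i 2 * f i + D i 4 * f (i + 2)))
  linear_combination f' (i - 1) * h1 + f' (i + 1) * h3 - w * f (i - 2) * h0 - w * f i * h2 -
    w * f (i + 2) * h4 + g2 - g1

lemma base_od0 {l m n ρ : ℤ → ℝ} {D : ℤ → Row} (hρ : ∀ i, ρ i ≠ 0)
    (hD : ∀ i, ρ i • D i = dif l m n i) {f' : ℤ → ℝ} {w : ℝ} (h : ∀ i, m i * f' i = w) :
    od D f' = 0 := by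
  funext i
  have h1 : ρ i * D i 1 = dif l m n i 1 := congrFun (hD i) 1
  have h3 : ρ i * D i 3 = dif l m n i 3 := congrFun (hD i) 3
  simp only [dif, Matrix.cons_val] at h1 h3
  apply mul_left_cancel₀ (hρ i)
  show ρ i * (D i 1 * f' (i - 1) + D i 3 * f' (i + 1)) = ρ i * 0
  linear_combination f' (i - 1) * h1 + f' (i + 1) * h3 + h (i + 1) - h (i - 1)

/-! ### The deformation -/

section Def

variable (N : ℕ) (lam mu nu : ℤ → ℝ) (R : ℤ → Row)

open Classical in
/-- indicator of the bad places -/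
noncomputable def z (i : ℤ) : ℝ := if dif lam mu nu i = 0 then 1 else 0

noncomputable def l1 (i : ℤ) : ℝ :=
  -(z lam mu nu (i + 1)) * R (i + 1) 0 + z lam mu nu (i - 1) * R (i - 1) 2
noncomputable def m1 (i : ℤ) : ℝ :=
  -(z lam mu nu (i + 1)) * R (i + 1) 1 + z lam mu nu (i - 1) * R (i - 1) 3
noncomputable def n1 (i : ℤ) : ℝ := z lam mu nu (i - 1) * R (i - 1) 4

def kap (i : ℤ) : ℝ := ((i % (N : ℤ) : ℤ) : ℝ)

noncomputable def Lf (t : ℝ) (i : ℤ) : ℝ := lam i + t * l1 lam mu nu R i + t ^ 2 * kap N i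
noncomputable def Mu (t : ℝ) (i : ℤ) : ℝ := mu i + t * m1 lam mu nu R i + t ^ 2
noncomputable def Nu (t : ℝ) (i : ℤ) : ℝ := nu i + t * n1 lam mu nu R i

open Classical in
noncomputable def Dt (t : ℝ) (i : ℤ) : Row :=
  if dif lam mu nu i = 0 then R i + t • dif (kap N) 1 0 i
  else dif (Lf N lam mu nu R t) (Mu lam mu nu R t) (Nu lam mu nu R t) i

open Classical in
noncomputable def rho (t : ℝ) (i : ℤ) : ℝ := if dif lam mu nu i = 0 then t else 1

lemma rho_ne {t : ℝ} (ht : t ≠ 0) (i : ℤ) : rho lam mu nu t i ≠ 0 := by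
  unfold rho; split_ifs
  · exact ht
  · exact one_ne_zero

variable {lam mu nu}

/-- Two bad places are never at distance two. -/
def Good (lam mu nu : ℤ → ℝ) : Prop := ∀ i, ¬ (lam i = 0 ∧ mu i = 0 ∧ nu i = 0)

lemma z_next (hG : Good lam mu nu) {i : ℤ} (h : dif lam mu nu i = 0) :
    z lam mu nu (i + 2) = 0 ∧ z lam mu nu (i - 2) = 0 := by
  have key : ∀ j, dif lam mu nu j = 0 → dif lam mu nu (j + 2) = 0 → False := by
    intro j h1 h2
    have a3 := congrFun h1 3
    have a4 := congrFun h1 4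
    have b0 := congrFun h2 0
    simp only [dif, Matrix.cons_val, Pi.zero_apply] at a3 a4 b0
    have e : j + 2 - 1 = j + 1 := by ring
    rw [e] at b0
    exact hG (j + 1) ⟨by linarith, a3, a4⟩
  constructor
  · unfold z
    rw [if_neg]
    exact fun h2 => key i h h2
  · unfold z
    rw [if_neg]
    intro h2
    refine key (i - 2) h2 ?_
    rw [sub_add_cancel]; exact h

lemma rho_Dt (hG : Good lam mu nu) (t : ℝ) (i : ℤ) :
    rho lam mu nu t i • Dt N lam mu nu R t i =
      dif (Lf N lam mu nu R t) (Mu lam mu nu R t) (Nu lam mu nu R t) i := by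
  unfold rho Dt
  split_ifs with h
  · obtain ⟨h1, h2⟩ := z_next hG h
    have hz : z lam mu nu i = 1 := by unfold z; rw [if_pos h]
    have a0 := congrFun h 0
    have a1 := congrFun h 1
    have a2 := congrFun h 2
    have a3 := congrFun h 3
    have a4 := congrFun h 4
    simp only [dif, Matrix.cons_val, Pi.zero_apply] at a0 a1 a2 a3 a4
    have e1 : i - 1 + 1 = i := by ring
    have e2 : i - 1 - 1 = i - 2 := by ring
    have e3 : i + 1 - 1 = i := by ring
    have e4 : i + 1 + 1 = i + 2 := by ring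
    funext k
    fin_cases k
    · simp only [dif, Lf, Mu, Nu, l1, m1, n1, e1, e2, e3, e4, h1, h2, hz, Pi.smul_apply,
        Pi.add_apply, smul_eq_mul, Matrix.cons_val, Pi.one_apply, Pi.zero_apply, Fin.zero_eta]
      linear_combination -a0
    · simp only [dif, Lf, Mu, Nu, l1, m1, n1, e1, e2, e3, e4, h1, h2, hz, Pi.smul_apply,
        Pi.add_apply, smul_eq_mul, Matrix.cons_val, Pi.one_apply, Pi.zero_apply, Fin.mk_one]
      linear_combination -a1
    · show t * (R i 2 + t * dif (kap N) 1 0 i 2) =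
        dif (Lf N lam mu nu R t) (Mu lam mu nu R t) (Nu lam mu nu R t) i 2
      simp only [dif, Lf, Mu, Nu, l1, m1, n1, e1, e2, e3, e4, h1, h2, hz,
        Matrix.cons_val, Pi.one_apply, Pi.zero_apply]
      linear_combination -a2
    · show t * (R i 3 + t * dif (kap N) 1 0 i 3) =
        dif (Lf N lam mu nu R t) (Mu lam mu nu R t) (Nu lam mu nu R t) i 3
      simp only [dif, Lf, Mu, Nu, l1, m1, n1, e1, e2, e3, e4, h1, h2, hz,
        Matrix.cons_val, Pi.one_apply, Pi.zero_apply]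
      linear_combination -a3
    · show t * (R i 4 + t * dif (kap N) 1 0 i 4) =
        dif (Lf N lam mu nu R t) (Mu lam mu nu R t) (Nu lam mu nu R t) i 4
      simp only [dif, Lf, Mu, Nu, l1, m1, n1, e1, e2, e3, e4, h1, h2, hz,
        Matrix.cons_val, Pi.one_apply, Pi.zero_apply]
      linear_combination -a4
  · rw [one_smul]

variable (lam mu nu)

open Classical in
lemma Dt_zero (i : ℤ) : Dt N lam mu nu R 0 i =
    if dif lam mu nu i = 0 then R i else dif lam mu nu i := by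
  unfold Dt
  split_ifs with h
  · rw [zero_smul, add_zero]
  · congr 1
    · funext j; simp [Lf]
    · funext j; simp [Mu]
    · funext j; simp [Nu]

lemma continuous_Dt (i : ℤ) (k : Fin 5) : Continuous fun t => Dt N lam mu nu R t i k := by
  unfold Dt
  split_ifs with h
  · simp only [Pi.add_apply, Pi.smul_apply, smul_eq_mul]
    fun_prop
  · have hL : ∀ j, Continuous fun t => Lf N lam mu nu R t j := fun j => by unfold Lf; fun_prop
    have hM : ∀ j, Continuous fun t => Mu lam mu nu R t j := fun j => by unfold Mu; fun_prop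
    have hN : ∀ j, Continuous fun t => Nu lam mu nu R t j := fun j => by unfold Nu; fun_prop
    fin_cases k
    · exact (hL _).neg
    · exact (hM _).neg
    · exact (hL _).sub (hN _)
    · exact hM _
    · exact hN _

/-! ### The reciprocal parameter -/

noncomputable def Lu (u : ℝ) (i : ℤ) : ℝ := u ^ 2 * lam i + u * l1 lam mu nu R i + kap N i
noncomputable def Mr (u : ℝ) (i : ℤ) : ℝ := u ^ 2 * mu i + u * m1 lam mu nu R i + 1
noncomputable def Nr (u : ℝ) (i : ℤ) : ℝ := u ^ 2 * nu i + u * n1 lam mu nu R i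

lemma Lf_eq {u : ℝ} (hu : u ≠ 0) (i : ℤ) :
    Lf N lam mu nu R u⁻¹ i = u⁻¹ ^ 2 * Lu N lam mu nu R u i := by
  unfold Lf Lu; field_simp
lemma Mu_eq {u : ℝ} (hu : u ≠ 0) (i : ℤ) :
    Mu lam mu nu R u⁻¹ i = u⁻¹ ^ 2 * Mr lam mu nu R u i := by
  unfold Mu Mr; field_simp
lemma Nu_eq {u : ℝ} (hu : u ≠ 0) (i : ℤ) :
    Nu lam mu nu R u⁻¹ i = u⁻¹ ^ 2 * Nr lam mu nu R u i := by
  unfold Nu Nr; field_simp

noncomputable def Wt (u : ℝ) : ℝ := ∏ j ∈ Finset.range N, Mr lam mu nu R u j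
noncomputable def Th (u : ℝ) (i : ℤ) : ℝ :=
  ∏ j ∈ (Finset.range N).erase (i % (N : ℤ)).toNat, Mr lam mu nu R u j

/-- the chain -/
noncomputable def G (u : ℝ) : ℕ → ℤ → ℝ
  | 0, i => Th N lam mu nu R u i
  | l + 1, i => Th N lam mu nu R u i *
      (Lu N lam mu nu R u i * G u l (i - 1) + Nr lam mu nu R u i * G u l (i + 1))

/-- periodic data -/
structure Per : Prop where
  pos : 0 < N
  lam : ∀ i, lam (i + N) = lam i
  mu : ∀ i, mu (i + N) = mu i
  nu : ∀ i, nu (i + N) = nu i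
  R : ∀ i, R (i + N) = R i

variable {lam mu nu R} {N}

section P

variable (hP : Per N lam mu nu R)

include hP

lemma dif_per (i : ℤ) : dif lam mu nu (i + N) = dif lam mu nu i := by
  have e1 : i + N - 1 = (i - 1) + N := by ring
  have e2 : i + N + 1 = (i + 1) + N := by ring
  simp only [dif, e1, e2, hP.lam, hP.mu, hP.nu]

lemma z_per (i : ℤ) : z lam mu nu (i + N) = z lam mu nu i := by
  unfold z; rw [dif_per hP]

lemma l1_per (i : ℤ) : l1 lam mu nu R (i + N) = l1 lam mu nu R i := by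
  have e1 : i + N - 1 = (i - 1) + N := by ring
  have e2 : i + N + 1 = (i + 1) + N := by ring
  unfold l1; rw [e1, e2, z_per hP, z_per hP, hP.R, hP.R]

lemma m1_per (i : ℤ) : m1 lam mu nu R (i + N) = m1 lam mu nu R i := by
  have e1 : i + N - 1 = (i - 1) + N := by ring
  have e2 : i + N + 1 = (i + 1) + N := by ring
  unfold m1; rw [e1, e2, z_per hP, z_per hP, hP.R, hP.R]

lemma n1_per (i : ℤ) : n1 lam mu nu R (i + N) = n1 lam mu nu R i := by
  have e1 : i + N - 1 = (i - 1) + N := by ring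
  unfold n1; rw [e1, z_per hP, hP.R]

omit hP in
lemma kap_per (i : ℤ) : kap N (i + N) = kap N i := by
  unfold kap; rw [Int.add_emod_right]

lemma Lu_per (u : ℝ) (i : ℤ) : Lu N lam mu nu R u (i + N) = Lu N lam mu nu R u i := by
  unfold Lu; rw [hP.lam, l1_per hP, kap_per]
lemma Mr_per (u : ℝ) (i : ℤ) : Mr lam mu nu R u (i + N) = Mr lam mu nu R u i := by
  unfold Mr; rw [hP.mu, m1_per hP]
lemma Nr_per (u : ℝ) (i : ℤ) : Nr lam mu nu R u (i + N) = Nr lam mu nu R u i := by
  unfold Nr; rw [hP.nu, n1_per hP]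

omit hP in
lemma Th_per (u : ℝ) (i : ℤ) : Th N lam mu nu R u (i + N) = Th N lam mu nu R u i := by
  unfold Th; rw [Int.add_emod_right]

lemma G_per (u : ℝ) (l : ℕ) : ∀ i, G N lam mu nu R u l (i + N) = G N lam mu nu R u l i := by
  induction l with
  | zero => exact Th_per u
  | succ l ih =>
    intro i
    have e1 : i + N - 1 = (i - 1) + N := by ring
    have e2 : i + N + 1 = (i + 1) + N := by ring
    rw [G, G, e1, e2, ih, ih, Th_per, Lu_per hP, Nr_per hP]

lemma Mr_mul_Th (u : ℝ) (i : ℤ) :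
    Mr lam mu nu R u i * Th N lam mu nu R u i = Wt N lam mu nu R u := by
  have h1 : 0 ≤ i % (N : ℤ) := Int.emod_nonneg _ (by have := hP.pos; omega)
  have h2 : i % (N : ℤ) < N := Int.emod_lt_of_pos _ (by have := hP.pos; omega)
  have h3 : (i % (N : ℤ)).toNat ∈ Finset.range N := by rw [Finset.mem_range]; omega
  rw [Wt, ← Finset.mul_prod_erase (Finset.range N) (fun j : ℕ => Mr lam mu nu R u (j : ℤ)) h3, Th]
  congr 1
  have h4 : (((i % (N : ℤ)).toNat : ℕ) : ℤ) = i % (N : ℤ) := Int.toNat_of_nonneg h1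
  show Mr lam mu nu R u i = Mr lam mu nu R u (((i % (N : ℤ)).toNat : ℕ) : ℤ)
  rw [h4, per_mod (f := Mr lam mu nu R u) (Mr_per hP u)]

/-- the chain lies in the kernels -/
lemma G_kernel (hG : Good lam mu nu) {u : ℝ} (hu : u ≠ 0) {j l : ℕ} (hl : l < j) :
    Mf (Dt N lam mu nu R u⁻¹) j (G N lam mu nu R u l) = 0 := by
  have hρ := rho_ne lam mu nu (inv_ne_zero hu)
  have hD := rho_Dt N R hG u⁻¹
  refine chain (w := Wt N lam mu nu R u) ?_ ?_ hl
  · refine base_od0 hρ hD (w := u⁻¹ ^ 2 * Wt N lam mu nu R u) fun i => ?_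
    rw [Mu_eq lam mu nu R hu, G, mul_assoc, Mr_mul_Th hP]
  · intro l
    refine base_od hρ hD fun i => ?_
    rw [Mu_eq lam mu nu R hu, Lf_eq N lam mu nu R hu, Nu_eq lam mu nu R hu, G,
      ← Mr_mul_Th hP u i]
    ring

end P

/-! ### Polynomial dependence -/

def IsPoly (f : ℝ → ℝ) : Prop := ∃ p : ℝ[X], ∀ u, f u = p.eval u

lemma IsPoly.const (c : ℝ) : IsPoly fun _ => c := ⟨C c, fun u => by simp⟩
lemma IsPoly.id : IsPoly fun u => u := ⟨X, fun u => by simp⟩
lemma IsPoly.add {f g : ℝ → ℝ} (hf : IsPoly f) (hg : IsPoly g) : IsPoly fun u => f u + g u := by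
  obtain ⟨p, hp⟩ := hf
  obtain ⟨q, hq⟩ := hg
  exact ⟨p + q, fun u => by show f u + g u = _; rw [eval_add, hp, hq]⟩
lemma IsPoly.mul {f g : ℝ → ℝ} (hf : IsPoly f) (hg : IsPoly g) : IsPoly fun u => f u * g u := by
  obtain ⟨p, hp⟩ := hf
  obtain ⟨q, hq⟩ := hg
  exact ⟨p * q, fun u => by show f u * g u = _; rw [eval_mul, hp, hq]⟩
lemma IsPoly.sq : IsPoly fun u => u ^ 2 := ⟨X ^ 2, fun u => by simp⟩
lemma IsPoly.prod {ι : Type*} (s : Finset ι) {f : ι → ℝ → ℝ} (hf : ∀ i, IsPoly (f i)) :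
    IsPoly fun u => ∏ i ∈ s, f i u := by
  choose p hp using hf
  exact ⟨∏ i ∈ s, p i, fun u => by rw [eval_prod]; exact Finset.prod_congr rfl fun i _ => hp i u⟩

lemma poly_Mr (i : ℤ) : IsPoly fun u => Mr lam mu nu R u i :=
  ((IsPoly.sq.mul (IsPoly.const _)).add (IsPoly.id.mul (IsPoly.const _))).add (IsPoly.const _)
lemma poly_Lu (i : ℤ) : IsPoly fun u => Lu N lam mu nu R u i :=
  ((IsPoly.sq.mul (IsPoly.const _)).add (IsPoly.id.mul (IsPoly.const _))).add (IsPoly.const _)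
lemma poly_Nr (i : ℤ) : IsPoly fun u => Nr lam mu nu R u i :=
  (IsPoly.sq.mul (IsPoly.const _)).add (IsPoly.id.mul (IsPoly.const _))
lemma poly_Th (i : ℤ) : IsPoly fun u => Th N lam mu nu R u i :=
  IsPoly.prod _ fun j => poly_Mr (j : ℤ)

lemma poly_G (l : ℕ) : ∀ i, IsPoly fun u => G N lam mu nu R u l i := by
  induction l with
  | zero => intro i; exact poly_Th i
  | succ l ih =>
    intro i
    exact (poly_Th i).mul (((poly_Lu i).mul (ih _)).add ((poly_Nr i).mul (ih _)))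

lemma poly_det {m : ℕ} {f : Fin m → Fin m → ℝ → ℝ} (hf : ∀ i j, IsPoly (f i j)) :
    IsPoly fun u => (Matrix.of fun i j => f i j u).det := by
  choose p hp using hf
  refine ⟨(Matrix.of p).det, fun u => ?_⟩
  have h : (Matrix.of fun i j => f i j u) = (Polynomial.evalRingHom u).mapMatrix (Matrix.of p) := by
    ext i j
    simp [hp]
  show (Matrix.of fun i j => f i j u).det = _
  rw [h, ← RingHom.map_det]
  rfl

/-! ### The chain at the special parameter -/

lemma Th_zero (i : ℤ) : Th N lam mu nu R 0 i = 1 := by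
  unfold Th
  exact Finset.prod_eq_one fun j _ => by simp [Mr]

lemma G_zero (l i : ℕ) (hi : i < N) :
    G N lam mu nu R 0 l (i : ℤ) = (i.descFactorial l : ℝ) := by
  induction l generalizing i with
  | zero => simp [G, Th_zero]
  | succ l ih =>
    have hk : kap N (i : ℤ) = i := by
      unfold kap
      rw [Int.emod_eq_of_lt (by omega) (by omega)]
      simp
    have h1 : G N lam mu nu R 0 (l + 1) (i : ℤ) = kap N i * G N lam mu nu R 0 l ((i : ℤ) - 1) := by
      rw [G, Th_zero]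
      simp [Lu, Nr]
    rw [h1, hk]
    cases i with
    | zero => simp
    | succ i =>
      have e : ((i + 1 : ℕ) : ℤ) - 1 = (i : ℤ) := by push_cast; ring
      rw [e, ih i (by omega), Nat.succ_descFactorial_succ]
      push_cast
      ring

lemma det_zero_ne {m r : ℕ} (h : ∀ s : Fin m, 2 * (s : ℕ) + r < N) :
    (Matrix.of fun s l : Fin m => G N lam mu nu R 0 l (2 * ((s : ℕ) : ℤ) + r)).det ≠ 0 := by
  have h1 : (Matrix.of fun s l : Fin m => G N lam mu nu R 0 l (2 * ((s : ℕ) : ℤ) + r)) =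
      Matrix.of fun s l : Fin m => (descPochhammer ℝ l).eval (((2 * (s : ℕ) + r : ℕ) : ℝ)) := by
    ext s l
    simp only [Matrix.of_apply]
    rw [descPochhammer_eval_eq_descFactorial, ← G_zero (lam := lam) (mu := mu) (nu := nu) (R := R)
      l _ (h s)]
    push_cast
    rfl
  rw [h1, ← Matrix.det_eval_matrixOfPolynomials_eq_det_vandermonde
    (fun s : Fin m => (((2 * (s : ℕ) + r : ℕ) : ℝ))) (fun l => descPochhammer ℝ l)
    (fun l => descPochhammer_natDegree ℝ _) (fun l => monic_descPochhammer ℝ _)]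
  rw [Matrix.det_vandermonde_ne_zero_iff]
  intro s s' hs
  have hs' : (((2 * (s : ℕ) + r : ℕ) : ℝ)) = ((2 * (s' : ℕ) + r : ℕ) : ℝ) := hs
  have : 2 * (s : ℕ) + r = 2 * (s' : ℕ) + r := by exact_mod_cast hs'
  exact Fin.ext (by omega)

/-- For all large integers the chain is independent. -/
lemma eventually_det {m r : ℕ} (h : ∀ s : Fin m, 2 * (s : ℕ) + r < N) :
    ∀ᶠ k : ℕ in Filter.atTop, (Matrix.of fun s l : Fin m =>
      G N lam mu nu R (k : ℝ) l (2 * ((s : ℕ) : ℤ) + r)).det ≠ 0 := by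
  obtain ⟨p, hp⟩ := poly_det (f := fun s l : Fin m => fun u =>
    G N lam mu nu R u l (2 * ((s : ℕ) : ℤ) + r)) fun s l => poly_G l _
  have hp0 : p ≠ 0 := by
    rintro rfl
    have := hp 0
    rw [eval_zero] at this
    exact det_zero_ne h this
  obtain ⟨b, hb⟩ := (Polynomial.finite_setOfPred_isRoot hp0).bddAbove
  obtain ⟨K, hK⟩ := exists_nat_gt b
  filter_upwards [Filter.eventually_ge_atTop K] with k hk h0
  have h1 : (k : ℝ) ∈ {x | IsRoot p x} := by
    show p.eval (k : ℝ) = 0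
    rw [← hp]; exact h0
  have h2 := hb h1
  have h3 : (K : ℝ) ≤ k := by exact_mod_cast hk
  linarith

end Def

end Q96.DV
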