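import Mathlib

/-!
Spatial polygons and the three-dimensional pentagram map.
-/

set_option autoImplicit false

namespace Q96.DV

open Module
open scoped LinearAlgebra.Projectivization

/-- Points of the real projective space of dimension three. -/
abbrev Pt : Type := ℙ ℝ (Fin 4 → ℝ)

/-- The line through the vertices `i - 1` and `i + 1` (as a subspace of `ℝ⁴`). -/
noncomputable def chord (A : ℤ → Pt) (i : ℤ) : Submodule ℝ (Fin 4 → ℝ) :=
  (A (i - 1)).submodule ⊔ (A (i + 1)).submodule

/-- The plane through the vertices `i - 2`, `i`, `i + 2` (as a subspace of `ℝ⁴`). -/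
noncomputable def wide (A : ℤ → Pt) (i : ℤ) : Submodule ℝ (Fin 4 → ℝ) :=
  (A (i - 2)).submodule ⊔ (A i).submodule ⊔ (A (i + 2)).submodule

/-- The face through the vertices `i - 1`, `i`, `i + 1` (as a subspace of `ℝ⁴`). -/
noncomputable def face (A : ℤ → Pt) (i : ℤ) : Submodule ℝ (Fin 4 → ℝ) :=
  (A (i - 1)).submodule ⊔ (A i).submodule ⊔ (A (i + 1)).submodule

/-- The pentagram map `F` is defined at the polygon `A` and `F(A) = B`: for every `i` the points
determine a line and a plane, which meet exactly in the point `B i`. -/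
def IsImage (A B : ℤ → Pt) : Prop :=
  ∀ i, finrank ℝ (chord A i) = 2 ∧ finrank ℝ (wide A i) = 3 ∧
    chord A i ⊓ wide A i = (B i).submodule

/-- The iterates `F(A), …, F^k(A)` are defined and `F^k(A) = B`. -/
def IsIterate (k : ℕ) (A B : ℤ → Pt) : Prop :=
  ∃ C : ℕ → ℤ → Pt, C 0 = A ∧ C k = B ∧ ∀ j < k, IsImage (C j) (C (j + 1))

end Q96.DV
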