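import Pool.Agent.Q96.DV.Op
import Pool.Agent.Q96.DV.Defs

set_option autoImplicit false

namespace Q96.DV

open Module Matrix
open scoped LinearAlgebra.Projectivization

/-- `w` is a linear relation of five consecutive vectors -/
def Rel (a : ℤ → Fin 4 → ℝ) (i : ℤ) (w : Row) : Prop :=
  (w 1 • a (i - 1) + w 3 • a (i + 1)) + (w 0 • a (i - 2) + w 2 • a i + w 4 • a (i + 2)) = 0

lemma ind2 {x y : Fin 4 → ℝ} (h : finrank ℝ ((ℝ ∙ x) ⊔ (ℝ ∙ y) : Submodule ℝ (Fin 4 → ℝ)) = 2)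
    {p q : ℝ} (h0 : p • x + q • y = 0) : p = 0 ∧ q = 0 := by
  have h1 : LinearIndependent ℝ ![x, y] := by
    rw [linearIndependent_iff_card_eq_finrank_span, Set.finrank]
    have h2 : Set.range ![x, y] = {x, y} := by ext v; simp; tauto
    rw [h2, Submodule.span_insert, h]
    rfl
  exact LinearIndependent.pair_iff.1 h1 p q h0

lemma ind3 {x y z : Fin 4 → ℝ}
    (h : finrank ℝ ((ℝ ∙ x) ⊔ (ℝ ∙ y) ⊔ (ℝ ∙ z) : Submodule ℝ (Fin 4 → ℝ)) = 3)
    {p q r : ℝ} (h0 : p • x + q • y + r • z = 0) : p = 0 ∧ q = 0 ∧ r = 0 := by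
  have h1 : LinearIndependent ℝ ![x, y, z] := by
    rw [linearIndependent_iff_card_eq_finrank_span, Set.finrank]
    have h2 : Set.range ![x, y, z] = {x, y, z} := by
      ext v; simp; tauto
    rw [h2, Submodule.span_insert, Submodule.span_insert, ← sup_assoc, h]
    rfl
  have h3 := Fintype.linearIndependent_iff.1 h1 ![p, q, r] (by
    simpa [Fin.sum_univ_three] using h0)
  exact ⟨h3 0, h3 1, h3 2⟩

variable {A B : ℤ → Pt} {a : ℤ → Fin 4 → ℝ}

lemma mem_chord (ha : ∀ i, (A i).submodule = ℝ ∙ a i) (i : ℤ) (p q : ℝ) :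
    p • a (i - 1) + q • a (i + 1) ∈ chord A i := by
  rw [chord, ha, ha]
  exact Submodule.add_mem _
    (Submodule.mem_sup_left (Submodule.smul_mem _ _ (Submodule.mem_span_singleton_self _)))
    (Submodule.mem_sup_right (Submodule.smul_mem _ _ (Submodule.mem_span_singleton_self _)))

lemma mem_wide (ha : ∀ i, (A i).submodule = ℝ ∙ a i) (i : ℤ) (p q r : ℝ) :
    p • a (i - 2) + q • a i + r • a (i + 2) ∈ wide A i := by
  rw [wide, ha, ha, ha]
  exact Submodule.add_mem _ (Submodule.add_mem _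
    (Submodule.mem_sup_left (Submodule.mem_sup_left
      (Submodule.smul_mem _ _ (Submodule.mem_span_singleton_self _))))
    (Submodule.mem_sup_left (Submodule.mem_sup_right
      (Submodule.smul_mem _ _ (Submodule.mem_span_singleton_self _)))))
    (Submodule.mem_sup_right (Submodule.smul_mem _ _ (Submodule.mem_span_singleton_self _)))

lemma mem_image (ha : ∀ i, (A i).submodule = ℝ ∙ a i) (hI : IsImage A B) {i : ℤ} {w : Row}
    (hw : Rel a i w) : w 1 • a (i - 1) + w 3 • a (i + 1) ∈ (B i).submodule := by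
  rw [← (hI i).2.2]
  refine ⟨mem_chord ha i _ _, ?_⟩
  have h1 : w 1 • a (i - 1) + w 3 • a (i + 1) =
      -(w 0 • a (i - 2) + w 2 • a i + w 4 • a (i + 2)) := eq_neg_of_add_eq_zero_left hw
  rw [h1]
  exact (wide A i).neg_mem (mem_wide ha i _ _ _)

lemma odd_ne_zero (ha : ∀ i, (A i).submodule = ℝ ∙ a i) (hI : IsImage A B) {i : ℤ} {w : Row}
    (hw0 : w ≠ 0) (hw : Rel a i w) : w 1 • a (i - 1) + w 3 • a (i + 1) ≠ 0 := by
  intro h
  have h1 := (hI i).1
  have h2 := (hI i).2.1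
  rw [chord, ha, ha] at h1
  rw [wide, ha, ha, ha] at h2
  obtain ⟨h3, h4⟩ := ind2 h1 h
  rw [Rel, h, zero_add] at hw
  obtain ⟨h5, h6, h7⟩ := ind3 h2 hw
  apply hw0
  funext k
  fin_cases k
  · exact h5
  · exact h3
  · exact h6
  · exact h4
  · exact h7

lemma image_eq (ha : ∀ i, (A i).submodule = ℝ ∙ a i) (hI : IsImage A B) {i : ℤ} {w : Row}
    (hw0 : w ≠ 0) (hw : Rel a i w) :
    (B i).submodule = ℝ ∙ (w 1 • a (i - 1) + w 3 • a (i + 1)) := by
  have h1 := mem_image ha hI hw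
  have h2 := odd_ne_zero ha hI hw0 hw
  symm
  refine Submodule.eq_of_le_of_finrank_eq ?_ ?_
  · rw [Submodule.span_singleton_le_iff_mem]; exact h1
  · rw [finrank_span_singleton h2, Projectivization.finrank_submodule]

lemma rel_unique (ha : ∀ i, (A i).submodule = ℝ ∙ a i) (hI : IsImage A B) {i : ℤ} {v w : Row}
    (hv0 : v ≠ 0) (hv : Rel a i v) (hw : Rel a i w) : ∃ c : ℝ, w = c • v := by
  have h1 := mem_image ha hI hw
  rw [image_eq ha hI hv0 hv, Submodule.mem_span_singleton] at h1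
  obtain ⟨c, hc⟩ := h1
  refine ⟨c, ?_⟩
  have h1 := (hI i).1
  have h2 := (hI i).2.1
  rw [chord, ha, ha] at h1
  rw [wide, ha, ha, ha] at h2
  have h3 : (w 1 - c * v 1) • a (i - 1) + (w 3 - c * v 3) • a (i + 1) = 0 := by
    rw [sub_smul, sub_smul, mul_smul, mul_smul]
    have : w 1 • a (i - 1) - c • v 1 • a (i - 1) + (w 3 • a (i + 1) - c • v 3 • a (i + 1)) =
      (w 1 • a (i - 1) + w 3 • a (i + 1)) - c • (v 1 • a (i - 1) + v 3 • a (i + 1)) := by module
    rw [this, hc, sub_self]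
  have h4 : (w 0 - c * v 0) • a (i - 2) + (w 2 - c * v 2) • a i + (w 4 - c * v 4) • a (i + 2) = 0 := by
    unfold Rel at hv hw
    linear_combination (norm := module) hw - c • hv - h3
  obtain ⟨h5, h6⟩ := ind2 h1 h3
  obtain ⟨h7, h8, h9⟩ := ind3 h2 h4
  funext k
  fin_cases k
  · show w 0 = c * v 0; linarith
  · show w 1 = c * v 1; linarith
  · show w 2 = c * v 2; linarith
  · show w 3 = c * v 3; linarith
  · show w 4 = c * v 4; linarith

lemma rel_iff (a : ℤ → Fin 4 → ℝ) (D : ℤ → Row) (i : ℤ) :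
    Rel a i (D i) ↔ od D a i + ev D a i = 0 := Iff.rfl

/-- The geometry of the iterates. -/
theorem iterate {m : ℕ} {C : ℕ → ℤ → Pt} (hC : ∀ j < m, IsImage (C j) (C (j + 1)))
    {a : ℤ → Fin 4 → ℝ} (ha : ∀ i, (C 0 i).submodule = ℝ ∙ a i) {D : ℤ → Row}
    (hD0 : ∀ i, D i ≠ 0) (hD : ∀ i, Rel a i (D i)) (j : ℕ) (hj : j ≤ m) :
    (∀ i, (C j i).submodule = ℝ ∙ (Mf D j a i)) ∧
      (j < m ∨ j = 0 → ∀ i, Ds D j i ≠ 0 ∧ Rel (Mf D j a) i (Ds D j i)) := by
  induction j with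
  | zero => exact ⟨ha, fun _ i => ⟨hD0 i, hD i⟩⟩
  | succ j ih =>
    obtain ⟨h1, h2⟩ := ih (by omega)
    have h3 := h2 (Or.inl (by omega))
    have hI := hC j (by omega)
    have h4 : ∀ i, (C (j + 1) i).submodule = ℝ ∙ (Mf D (j + 1) a i) :=
      fun i => image_eq h1 hI (h3 i).1 (h3 i).2
    refine ⟨h4, fun hj' i => ?_⟩
    have hj2 : j + 1 < m := by
      rcases hj' with h | h
      · exact h
      · omega
    have hI' := hC (j + 1) hj2
    have key : ∀ w : Row, Sol (Ds D j) i w → Rel (Mf D (j + 1) a) i w := by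
      intro w hw
      have h5 := refactor hw (Mf D j a)
      have h6 : ∀ k, od (Ds D j) (Mf D j a) k = -ev (Ds D j) (Mf D j a) k := fun k =>
        eq_neg_of_add_eq_zero_left (h3 k).2
      show (w 1 • od (Ds D j) (Mf D j a) (i - 1) + w 3 • od (Ds D j) (Mf D j a) (i + 1)) +
        (w 0 • od (Ds D j) (Mf D j a) (i - 2) + w 2 • od (Ds D j) (Mf D j a) i +
          w 4 • od (Ds D j) (Mf D j a) (i + 2)) = 0
      rw [← h5, h6 (i - 1), h6 (i + 1)]
      module
    obtain ⟨v, hv0, hv⟩ := exists_sol (Ds D j) i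
    exact ⟨next_ne_zero hv0 fun w hw => rel_unique h4 hI' hv0 (key v hv) (key w hw),
      key _ (sol_next _ i)⟩

end Q96.DV
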