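import Pool.Agent.Q96.DV.Geo
import Pool.Agent.Q96.DV.Chain

set_option autoImplicit false

namespace Q96.DV

open Module Matrix Filter Topology
open scoped LinearAlgebra.Projectivization

/-- Every five vectors are related. -/
lemma exists_rel (a : ℤ → Fin 4 → ℝ) (i : ℤ) : ∃ w : Row, w ≠ 0 ∧ Rel a i w := by
  let Φ : Row →ₗ[ℝ] (Fin 4 → ℝ) :=
    { toFun := fun w => (w 1 • a (i - 1) + w 3 • a (i + 1)) +
        (w 0 • a (i - 2) + w 2 • a i + w 4 • a (i + 2))
      map_add' := fun v w => by simp only [Pi.add_apply]; module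
      map_smul' := fun c w => by
        simp only [Pi.smul_apply, smul_eq_mul, RingHom.id_apply]; module }
  have h : LinearMap.ker Φ ≠ ⊥ := by
    refine LinearMap.ker_ne_bot_of_finrank_lt ?_
    simp
  obtain ⟨w, hw, hw0⟩ := Submodule.exists_mem_ne_zero_of_ne_bot h
  exact ⟨w, hw0, hw⟩

/-- A unit covector for the generic parameters. -/
lemma generic {n m r : ℕ} (hn : n = m + 3) {lam mu nu : ℤ → ℝ} {R : ℤ → Row}
    (hP : Per (2 * n) lam mu nu R) (hG : Good lam mu nu) {a : ℤ → Fin 4 → ℝ}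
    (ha : ∀ i, a (i + (2 * n : ℕ)) = a i) {u : ℝ} (hu : u ≠ 0)
    (hdet : (Matrix.of fun s l : Fin m =>
      G (2 * n) lam mu nu R u l (2 * ((s : ℕ) : ℤ) + r)).det ≠ 0) :
    ∃ c : Fin 4 → ℝ, ‖c‖ = 1 ∧ ∀ i : ℤ,
      c ⬝ᵥ Mf (Dt (2 * n) lam mu nu R u⁻¹) m a (2 * i + r + m) = 0 := by
  set g : ℕ → ℤ → ℝ := G (2 * n) lam mu nu R u with hg
  let Φ : ((Fin 4 → ℝ) × (Fin m → ℝ)) →ₗ[ℝ] (Fin n → ℝ) :=
    { toFun := fun v s => v.1 ⬝ᵥ a (2 * ((s : ℕ) : ℤ) + r) +
        ∑ l : Fin m, v.2 l * g l (2 * ((s : ℕ) : ℤ) + r)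
      map_add' := fun v w => by
        funext s
        simp only [Prod.fst_add, Prod.snd_add, Pi.add_apply, add_dotProduct, add_mul,
          Finset.sum_add_distrib]
        ring
      map_smul' := fun c w => by
        funext s
        simp only [Prod.smul_fst, Prod.smul_snd, Pi.smul_apply, smul_eq_mul, smul_dotProduct,
          RingHom.id_apply, mul_assoc, Finset.mul_sum, mul_add] }
  have hker : LinearMap.ker Φ ≠ ⊥ := by
    refine LinearMap.ker_ne_bot_of_finrank_lt ?_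
    simp
    omega
  obtain ⟨v, hv, hv0⟩ := Submodule.exists_mem_ne_zero_of_ne_bot hker
  have hv' : ∀ s : Fin n, v.1 ⬝ᵥ a (2 * ((s : ℕ) : ℤ) + r) +
      ∑ l : Fin m, v.2 l * g l (2 * ((s : ℕ) : ℤ) + r) = 0 := fun s =>
    congrFun (show Φ v = 0 from hv) s
  have hc0 : v.1 ≠ 0 := by
    intro h
    have h1 : (Matrix.of fun s l : Fin m => g l (2 * ((s : ℕ) : ℤ) + r)) *ᵥ v.2 = 0 := by
      funext s
      have h2 := hv' ⟨s, by omega⟩
      rw [h, zero_dotProduct, zero_add] at h2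
      rw [Matrix.mulVec, dotProduct]
      simp only [Matrix.of_apply, Pi.zero_apply]
      rw [← h2]
      exact Finset.sum_congr rfl fun l _ => mul_comm _ _
    have h2 : v.2 = 0 := by
      by_contra h3
      exact hdet (Matrix.exists_mulVec_eq_zero_iff.1 ⟨v.2, h3, h1⟩)
    exact hv0 (Prod.ext h h2)
  -- the sequence
  let f : ℤ → ℝ := fun i => v.1 ⬝ᵥ a i + ∑ l : Fin m, v.2 l * g l i
  have hf_per : ∀ i, f (i + (2 * n : ℕ)) = f i := by
    intro i
    show v.1 ⬝ᵥ a (i + (2 * n : ℕ)) + ∑ l : Fin m, v.2 l * g l (i + (2 * n : ℕ)) = f i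
    rw [ha]
    congr 1
    exact Finset.sum_congr rfl fun l _ => by rw [hg, G_per hP u]
  have hf0 : ∀ s : ℤ, f (2 * s + r) = 0 := by
    intro s
    have hn0 : (0 : ℤ) < n := by omega
    have h1 : 0 ≤ s % (n : ℤ) := Int.emod_nonneg _ (by omega)
    have h2 : s % (n : ℤ) < n := Int.emod_lt_of_pos _ hn0
    have h3 := per_mul (f := f) (N := ((2 * n : ℕ) : ℤ)) hf_per (s / n) (2 * (s % (n : ℤ)) + r)
    have h4 : 2 * (s % (n : ℤ)) + r + s / n * ((2 * n : ℕ) : ℤ) = 2 * s + r := by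
      have := Int.emod_add_mul_ediv s n
      push_cast
      linear_combination 2 * this
    rw [h4] at h3
    rw [h3]
    have h5 := hv' ⟨(s % (n : ℤ)).toNat, by omega⟩
    have h6 : (((s % (n : ℤ)).toNat : ℕ) : ℤ) = s % (n : ℤ) := Int.toNat_of_nonneg h1
    simp only [h6] at h5
    exact h5
  have hM := Mf_parity (D := Dt (2 * n) lam mu nu R u⁻¹) hf0 m
  have hfeq : f = (fun i => v.1 ⬝ᵥ a i) + ∑ l : Fin m, v.2 l • g l := by
    funext i
    simp [f, Finset.sum_apply]
  have hMf : ∀ i, Mf (Dt (2 * n) lam mu nu R u⁻¹) m f i =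
      v.1 ⬝ᵥ Mf (Dt (2 * n) lam mu nu R u⁻¹) m a i := by
    intro i
    rw [hfeq, Mf_add, Mf_sum]
    have h1 : ∑ l : Fin m, Mf (Dt (2 * n) lam mu nu R u⁻¹) m (v.2 l • g l) = 0 :=
      Finset.sum_eq_zero fun l _ => by
        rw [Mf_smul, hg, G_kernel hP hG hu l.2, smul_zero]
    rw [h1, add_zero, Mf_dot]
  refine ⟨‖v.1‖⁻¹ • v.1, ?_, fun i => ?_⟩
  · rw [norm_smul, norm_inv, norm_norm, inv_mul_cancel₀ (norm_ne_zero_iff.2 hc0)]
  · rw [smul_dotProduct, ← hMf, hM i, smul_zero]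

/-- The limit. -/
lemma limit {n m r : ℕ} (hn : n = m + 3) (hr : r ≤ 1) {lam mu nu : ℤ → ℝ} {R : ℤ → Row}
    (hP : Per (2 * n) lam mu nu R) (hG : Good lam mu nu) {a : ℤ → Fin 4 → ℝ}
    (ha : ∀ i, a (i + (2 * n : ℕ)) = a i) :
    ∃ c : Fin 4 → ℝ, c ≠ 0 ∧ ∀ i : ℤ,
      c ⬝ᵥ Mf (Dt (2 * n) lam mu nu R 0) m a (2 * i + r + m) = 0 := by
  have hev := eventually_det (N := 2 * n) (lam := lam) (mu := mu) (nu := nu) (R := R) (m := m)
    (r := r) (fun s => by have := s.2; omega)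
  obtain ⟨K, hK⟩ := Filter.eventually_atTop.1 (hev.and (Filter.eventually_gt_atTop 0))
  have hex : ∀ k : ℕ, ∃ c : Fin 4 → ℝ, ‖c‖ = 1 ∧ ∀ i : ℤ,
      c ⬝ᵥ Mf (Dt (2 * n) lam mu nu R (((K + k : ℕ) : ℝ))⁻¹) m a (2 * i + r + m) = 0 := by
    intro k
    obtain ⟨h1, h2⟩ := hK (K + k) (by omega)
    exact generic hn hP hG ha (by exact_mod_cast h2.ne') h1
  choose c hc1 hc using hex
  have hcomp : IsCompact (Metric.sphere (0 : Fin 4 → ℝ) 1) := isCompact_sphere _ _
  obtain ⟨c0, hc0, φ, hφ, hlim⟩ := hcomp.tendsto_subseq (x := c)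
    (fun k => by rw [mem_sphere_zero_iff_norm]; exact hc1 k)
  refine ⟨c0, ?_, fun i => ?_⟩
  · rintro rfl
    rw [mem_sphere_zero_iff_norm, norm_zero] at hc0
    exact zero_ne_one hc0
  · have ht : Tendsto (fun k : ℕ => (((K + φ k : ℕ) : ℝ))⁻¹) atTop (𝓝 0) := by
      have h1 : Tendsto (fun k : ℕ => K + φ k) atTop atTop :=
        tendsto_atTop_mono (fun k => Nat.le_add_left _ _) hφ.tendsto_atTop
      exact tendsto_inv_atTop_zero.comp (tendsto_natCast_atTop_atTop.comp h1)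
    have hcont := continuous_Mf (D := fun t => Dt (2 * n) lam mu nu R t)
      (fun i k => continuous_Dt (2 * n) lam mu nu R i k) a m (2 * i + r + m)
    have h2 : Tendsto (fun k => Mf (Dt (2 * n) lam mu nu R (((K + φ k : ℕ) : ℝ))⁻¹) m a
        (2 * i + r + m)) atTop (𝓝 (Mf (Dt (2 * n) lam mu nu R 0) m a (2 * i + r + m))) :=
      (hcont.tendsto 0).comp ht
    have hdot : Continuous fun p : (Fin 4 → ℝ) × (Fin 4 → ℝ) => p.1 ⬝ᵥ p.2 := by
      unfold dotProduct
      fun_prop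
    have h3 : Tendsto (fun k => c (φ k) ⬝ᵥ Mf (Dt (2 * n) lam mu nu R (((K + φ k : ℕ) : ℝ))⁻¹) m a
        (2 * i + r + m)) atTop
        (𝓝 (c0 ⬝ᵥ Mf (Dt (2 * n) lam mu nu R 0) m a (2 * i + r + m))) :=
      (hdot.tendsto (c0, _)).comp (hlim.prodMk_nhds h2)
    have h4 : (fun k => c (φ k) ⬝ᵥ Mf (Dt (2 * n) lam mu nu R (((K + φ k : ℕ) : ℝ))⁻¹) m a
        (2 * i + r + m)) = fun _ => 0 := by
      funext k; exact hc (φ k) i
    rw [h4] at h3
    exact tendsto_nhds_unique h3 tendsto_const_nhds |>.symm ▸ rfl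

/-- The plane orthogonal to a covector. -/
lemma exists_plane {c : Fin 4 → ℝ} (hc : c ≠ 0) :
    ∃ H : Submodule ℝ (Fin 4 → ℝ), finrank ℝ H = 3 ∧ ∀ x, c ⬝ᵥ x = 0 → x ∈ H := by
  let φ : (Fin 4 → ℝ) →ₗ[ℝ] ℝ :=
    { toFun := fun x => c ⬝ᵥ x
      map_add' := fun x y => dotProduct_add _ _ _
      map_smul' := fun r x => dotProduct_smul _ _ _ }
  refine ⟨LinearMap.ker φ, ?_, fun x hx => hx⟩
  have hφ : LinearMap.range φ = ⊤ := by
    rw [LinearMap.range_eq_top]
    refine LinearMap.surjective ?_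
    intro h
    have h1 : c ⬝ᵥ c = 0 := LinearMap.congr_fun h c
    exact hc (dotProduct_self_eq_zero.1 h1)
  have h1 := LinearMap.finrank_range_add_finrank_ker φ
  rw [hφ, finrank_top] at h1
  simp at h1
  omega

theorem main {n : ℕ} (hn : 4 ≤ n) {A B : ℤ → Pt} (hA : ∀ i, A (i + 2 * n) = A i)
    {P Q : Pt} (hPf : ∀ i, Even i → P.submodule ≤ face A i)
    (hQf : ∀ i, Odd i → Q.submodule ≤ face A i) (hB : IsIterate (n - 3) A B) {r : ℕ} (hr : r ≤ 1) :
    ∃ H : Submodule ℝ (Fin 4 → ℝ), finrank ℝ H = 3 ∧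
      ∀ i : ℤ, (B (2 * i + r + ((n - 3 : ℕ) : ℤ))).submodule ≤ H := by
  obtain ⟨C, hC0, hCm, hC⟩ := hB
  set m := n - 3 with hm
  have hnm : n = m + 3 := by omega
  set a : ℤ → Fin 4 → ℝ := fun i => (A i).rep with ha_def
  have hA' : ∀ i, A (i + (2 * n : ℕ)) = A i := fun i => by
    have := hA i
    push_cast
    exact this
  have ha : ∀ i, a (i + (2 * n : ℕ)) = a i := fun i => by simp only [ha_def, hA']
  have hsub : ∀ i, (A i).submodule = ℝ ∙ a i := fun i => Projectivization.submodule_eq _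
  -- the points through which the faces pass
  set U : ℤ → Fin 4 → ℝ := fun i => if Even i then P.rep else Q.rep with hU
  have hU0 : ∀ i, U i ≠ 0 := by
    intro i
    simp only [hU]
    split_ifs
    · exact P.rep_nonzero
    · exact Q.rep_nonzero
  have hU2 : ∀ i, U (i + 2) = U i := by
    intro i
    simp only [hU]
    have : Even (i + 2) ↔ Even i := by
      constructor <;> intro h
      · obtain ⟨k, hk⟩ := h; exact ⟨k - 1, by omega⟩
      · obtain ⟨k, hk⟩ := h; exact ⟨k + 1, by omega⟩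
    simp only [this]
  have hUn : ∀ i, U (i + (2 * n : ℕ)) = U i := by
    intro i
    have h := per_mul (f := U) (N := 2) hU2 n i
    rw [← h]
    congr 1
    push_cast
    ring
  have hUf : ∀ i, U i ∈ face A i := by
    intro i
    simp only [hU]
    split_ifs with h
    · exact hPf i h (by rw [Projectivization.submodule_eq]; exact Submodule.mem_span_singleton_self _)
    · exact hQf i (Int.not_even_iff_odd.1 h)
        (by rw [Projectivization.submodule_eq]; exact Submodule.mem_span_singleton_self _)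
  have hE : ∀ i, ∃ l q k : ℝ, l • a (i - 1) + q • a i + k • a (i + 1) = U i := by
    intro i
    have h := hUf i
    rw [face, hsub, hsub, hsub] at h
    obtain ⟨y, hy, z, hz, hyz⟩ := Submodule.mem_sup.1 h
    obtain ⟨y1, hy1, y2, hy2, hyy⟩ := Submodule.mem_sup.1 hy
    obtain ⟨l, rfl⟩ := Submodule.mem_span_singleton.1 hy1
    obtain ⟨q, rfl⟩ := Submodule.mem_span_singleton.1 hy2
    obtain ⟨k, rfl⟩ := Submodule.mem_span_singleton.1 hz
    exact ⟨l, q, k, by rw [hyy, hyz]⟩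
  choose l q k hlqk using hE
  choose S hS0 hS using fun i => exists_rel a i
  set N : ℤ := ((2 * n : ℕ) : ℤ) with hN
  set lam : ℤ → ℝ := fun i => l (i % N)
  set mu : ℤ → ℝ := fun i => q (i % N)
  set nu : ℤ → ℝ := fun i => k (i % N)
  set R : ℤ → Row := fun i => S (i % N)
  have hP : Per (2 * n) lam mu nu R :=
    { pos := by omega
      lam := fun i => by show l _ = l _; rw [Int.add_emod_right]
      mu := fun i => by show q _ = q _; rw [Int.add_emod_right]
      nu := fun i => by show k _ = k _; rw [Int.add_emod_right]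
      R := fun i => by show S _ = S _; rw [Int.add_emod_right] }
  have sh : ∀ d i, a (i % N + d) = a (i + d) := fun d i =>
    per_mod (f := fun i => a (i + d)) (N := N)
      (fun i => by show a (i + N + d) = a (i + d); rw [add_right_comm]; exact ha _) i
  have hrel : ∀ i, lam i • a (i - 1) + mu i • a i + nu i • a (i + 1) = U i := by
    intro i
    have h := hlqk (i % N)
    have h1 := sh (-1) i
    have h2 := sh 0 i
    have h3 := sh 1 i
    rw [add_zero, add_zero] at h2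
    rw [← sub_eq_add_neg, ← sub_eq_add_neg] at h1
    rw [h1, h2, h3, per_mod (f := U) (N := N) hUn] at h
    exact h
  have hG : Good lam mu nu := by
    rintro i ⟨h1, h2, h3⟩
    have h := hrel i
    rw [h1, h2, h3, zero_smul, zero_smul, zero_smul, add_zero, add_zero] at h
    exact hU0 i h.symm
  have hR : ∀ i, Rel a i (R i) := by
    intro i
    have h := hS (i % N)
    unfold Rel at h ⊢
    have h1 := sh (-1) i
    have h2 := sh 0 i
    have h3 := sh 1 i
    have h4 := sh (-2) i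
    have h5 := sh 2 i
    rw [add_zero, add_zero] at h2
    rw [← sub_eq_add_neg, ← sub_eq_add_neg] at h1 h4
    rw [h1, h2, h3, h4, h5] at h
    exact h
  have hdif : ∀ i, Rel a i (dif lam mu nu i) := by
    intro i
    have g1 := hrel (i - 1)
    have g2 := hrel (i + 1)
    have e1 : i - 1 - 1 = i - 2 := by ring
    have e2 : i - 1 + 1 = i := by ring
    have e3 : i + 1 - 1 = i := by ring
    have e4 : i + 1 + 1 = i + 2 := by ring
    rw [e1, e2] at g1
    rw [e3, e4] at g2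
    have g3 : U (i + 1) = U (i - 1) := by
      have := hU2 (i - 1)
      rw [← this]; congr 1; ring
    rw [g3] at g2
    unfold Rel
    simp only [dif, Matrix.cons_val]
    linear_combination (norm := module) g2 - g1
  set D : ℤ → Row := Dt (2 * n) lam mu nu R 0 with hD
  have hD0 : ∀ i, D i ≠ 0 := by
    intro i
    rw [hD, Dt_zero]
    split_ifs with h
    · exact hS0 _
    · exact h
  have hDr : ∀ i, Rel a i (D i) := by
    intro i
    rw [hD, Dt_zero]
    split_ifs with h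
    · exact hR i
    · exact hdif i
  have hit := (iterate hC (a := a) (fun i => by rw [hC0]; exact hsub i) hD0 hDr m le_rfl).1
  obtain ⟨c, hc0, hc⟩ := limit hnm hr hP hG ha
  obtain ⟨H, hH, hHc⟩ := exists_plane hc0
  refine ⟨H, hH, fun i => ?_⟩
  rw [← hCm, hit, Submodule.span_singleton_le_iff_mem]
  exact hHc _ (hc i)

end Q96.DV
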