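import Mathlib

/-!
Five-term operators on sequences and the refactorization step.
-/

set_option autoImplicit false

namespace Q96.DV

open Matrix

/-- Coefficients of the positions `-2, -1, 0, 1, 2`. -/
abbrev Row := Fin 5 → ℝ

section Ops

variable {V : Type*} [AddCommGroup V] [Module ℝ V]

/-- odd part of the operator -/
def od (D : ℤ → Row) (f : ℤ → V) (i : ℤ) : V := D i 1 • f (i - 1) + D i 3 • f (i + 1)

/-- even part of the operator -/
def ev (D : ℤ → Row) (f : ℤ → V) (i : ℤ) : V :=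
  D i 0 • f (i - 2) + D i 2 • f i + D i 4 • f (i + 2)

/-- `w` is a possible row `i` of the next operator. -/
def Sol (D : ℤ → Row) (i : ℤ) (w : Row) : Prop :=
  w 1 * D (i - 1) 0 = w 0 * D (i - 2) 1 ∧
  w 3 * D (i + 1) 4 = w 4 * D (i + 2) 3 ∧
  w 1 * D (i - 1) 2 + w 3 * D (i + 1) 0 = w 0 * D (i - 2) 3 + w 2 * D i 1 ∧
  w 1 * D (i - 1) 4 + w 3 * D (i + 1) 2 = w 2 * D i 3 + w 4 * D (i + 2) 1

/-- the matrix of the system, completed by a last row -/
def sysM (D : ℤ → Row) (i : ℤ) (x : Row) : Matrix (Fin 5) (Fin 5) ℝ :=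
  !![-D (i - 2) 1, D (i - 1) 0, 0, 0, 0;
     0, 0, 0, D (i + 1) 4, -D (i + 2) 3;
     -D (i - 2) 3, D (i - 1) 2, -D i 1, D (i + 1) 0, 0;
     0, D (i - 1) 4, -D i 3, D (i + 1) 2, -D (i + 2) 1;
     x 0, x 1, x 2, x 3, x 4]

/-- the next operator -/
noncomputable def next (D : ℤ → Row) (i : ℤ) : Row := fun k => (sysM D i 0).adjugate k 4

lemma mulVec_iff (D : ℤ → Row) (i : ℤ) (x w : Row) (b : ℝ) :
    (sysM D i x *ᵥ w = Pi.single 4 b) ↔ Sol D i w ∧ x ⬝ᵥ w = b := by
  constructor
  · intro h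
    have h0 := congrFun h 0
    have h1 := congrFun h 1
    have h2 := congrFun h 2
    have h3 := congrFun h 3
    have h4 := congrFun h 4
    simp [sysM, Matrix.mulVec, dotProduct, Fin.sum_univ_five] at h0 h1 h2 h3 h4
    refine ⟨⟨by linarith, by linarith, by linarith, by linarith⟩, ?_⟩
    simp [dotProduct, Fin.sum_univ_five]
    linarith
  · rintro ⟨⟨h0, h1, h2, h3⟩, h4⟩
    simp [dotProduct, Fin.sum_univ_five] at h4
    funext k
    fin_cases k
    · simp [sysM, Matrix.mulVec, dotProduct, Fin.sum_univ_five]; linarith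
    · simp [sysM, Matrix.mulVec, dotProduct, Fin.sum_univ_five]; linarith
    · simp [sysM, Matrix.mulVec, dotProduct, Fin.sum_univ_five]; linarith
    · simp [sysM, Matrix.mulVec, dotProduct, Fin.sum_univ_five]; linarith
    · simp [sysM, Matrix.mulVec, dotProduct, Fin.sum_univ_five]; linarith

lemma det_zero (D : ℤ → Row) (i : ℤ) : (sysM D i 0).det = 0 := by
  refine Matrix.det_eq_zero_of_row_eq_zero 4 fun j => ?_
  fin_cases j <;> simp [sysM]

lemma sol_next (D : ℤ → Row) (i : ℤ) : Sol D i (next D i) := by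
  have h : sysM D i 0 *ᵥ next D i = Pi.single 4 0 := by
    have h1 := Matrix.mul_adjugate (sysM D i 0)
    rw [det_zero, zero_smul] at h1
    funext k
    have h2 := congrFun (congrFun h1 k) 4
    rw [Matrix.mul_apply] at h2
    rw [Pi.single_zero]
    exact h2
  exact ((mulVec_iff D i 0 _ 0).1 h).1

lemma exists_sol (D : ℤ → Row) (i : ℤ) : ∃ w : Row, w ≠ 0 ∧ Sol D i w := by
  obtain ⟨w, hw, h⟩ := Matrix.exists_mulVec_eq_zero_iff.2 (det_zero D i)
  refine ⟨w, hw, ((mulVec_iff D i 0 w 0).1 ?_).1⟩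
  rw [h, Pi.single_zero]

lemma sys_eq (D : ℤ → Row) (i : ℤ) (x : Row) : sysM D i x = (sysM D i 0).updateRow 4 x := by
  ext a b
  fin_cases a <;> fin_cases b <;> simp [sysM, Matrix.updateRow_apply]

lemma updateRow_sys (D : ℤ → Row) (i : ℤ) (x y : Row) :
    (sysM D i x).updateRow 4 y = (sysM D i 0).updateRow 4 y := by
  rw [sys_eq]
  exact Function.update_idem _ _ _

lemma next_ne_zero {D : ℤ → Row} {i : ℤ} {v : Row} (hv : v ≠ 0)
    (hu : ∀ w, Sol D i w → ∃ c : ℝ, w = c • v) : next D i ≠ 0 := by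
  intro h0
  have h1 : ∀ k, (sysM D i v).adjugate k 4 = 0 := by
    intro k
    rw [Matrix.adjugate_apply, updateRow_sys, ← Matrix.adjugate_apply]
    exact congrFun h0 k
  have hdet : (sysM D i v).det = 0 := by
    rw [Matrix.det_eq_sum_mul_adjugate_row (sysM D i v) 4]
    exact Finset.sum_eq_zero fun k _ => by rw [h1 k, mul_zero]
  obtain ⟨w, hw, hw0⟩ := Matrix.exists_mulVec_eq_zero_iff.2 hdet
  have h2 := (mulVec_iff D i v w 0).1 (by rw [hw0, Pi.single_zero])
  obtain ⟨c, hc⟩ := hu w h2.1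
  have h3 := h2.2
  rw [hc, dotProduct_smul, smul_eq_mul] at h3
  have h4 : v ⬝ᵥ v ≠ 0 := fun h => hv (dotProduct_self_eq_zero.1 h)
  have h5 : c = 0 := by
    rcases mul_eq_zero.1 h3 with h | h
    · exact h
    · exact absurd h h4
  exact hw (by rw [hc, h5, zero_smul])

/-- Refactorization at one place. -/
lemma refactor {D : ℤ → Row} {i : ℤ} {w : Row} (h : Sol D i w) (f : ℤ → V) :
    w 1 • ev D f (i - 1) + w 3 • ev D f (i + 1) =
      w 0 • od D f (i - 2) + w 2 • od D f i + w 4 • od D f (i + 2) := by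
  obtain ⟨h0, h1, h2, h3⟩ := h
  simp only [od, ev]
  have e1 : i - 1 - 2 = i - 3 := by ring
  have e2 : i - 1 + 2 = i + 1 := by ring
  have e3 : i + 1 - 2 = i - 1 := by ring
  have e4 : i + 1 + 2 = i + 3 := by ring
  have e5 : i - 2 - 1 = i - 3 := by ring
  have e6 : i - 2 + 1 = i - 1 := by ring
  have e7 : i + 2 - 1 = i + 1 := by ring
  have e8 : i + 2 + 1 = i + 3 := by ring
  rw [e1, e2, e3, e4, e5, e6, e7, e8]
  linear_combination (norm := module) h0 • f (i - 3) + h1 • f (i + 3) + h2 • f (i - 1) + h3 • f (i + 1)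

lemma intertwine (D : ℤ → Row) (f : ℤ → V) :
    od (next D) (ev D f) = ev (next D) (od D f) :=
  funext fun i => refactor (sol_next D i) f

/-- the sequence of operators -/
noncomputable def Ds (D : ℤ → Row) : ℕ → ℤ → Row
  | 0 => D
  | j + 1 => next (Ds D j)

/-- the product of the odd parts -/
noncomputable def Mf (D : ℤ → Row) : ℕ → (ℤ → V) → ℤ → V
  | 0, f => f
  | j + 1, f => od (Ds D j) (Mf D j f)

lemma base_step {D : ℤ → Row} {f f' : ℤ → V} (h : od D f' = ev D f) (j : ℕ) :
    Mf D (j + 1) f' = ev (Ds D j) (Mf D j f) := by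
  induction j with
  | zero => exact h
  | succ j ih =>
    rw [Mf, ih]
    exact intertwine _ _

lemma od_zero (D : ℤ → Row) : od D (0 : ℤ → V) = 0 := by
  funext i; simp [od]

lemma ev_zero (D : ℤ → Row) : ev D (0 : ℤ → V) = 0 := by
  funext i; simp [ev]

lemma ev_smul (D : ℤ → Row) (c : ℝ) (f : ℤ → V) : ev D (c • f) = c • ev D f := by
  funext i; simp only [ev, Pi.smul_apply, smul_add]
  rw [smul_comm c, smul_comm c, smul_comm c]

lemma od_add (D : ℤ → Row) (f g : ℤ → V) : od D (f + g) = od D f + od D g := by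
  funext i; simp only [od, Pi.add_apply, smul_add]; abel

lemma od_smul (D : ℤ → Row) (c : ℝ) (f : ℤ → V) : od D (c • f) = c • od D f := by
  funext i; simp only [od, Pi.smul_apply, smul_add]
  rw [smul_comm c, smul_comm c]

lemma Mf_zero (D : ℤ → Row) (j : ℕ) : Mf D j (0 : ℤ → V) = 0 := by
  induction j with
  | zero => rfl
  | succ j ih => rw [Mf, ih, od_zero]

lemma Mf_add (D : ℤ → Row) (j : ℕ) (f g : ℤ → V) : Mf D j (f + g) = Mf D j f + Mf D j g := by
  induction j with
  | zero => rfl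
  | succ j ih => rw [Mf, ih, od_add]; rfl

lemma Mf_smul (D : ℤ → Row) (j : ℕ) (c : ℝ) (f : ℤ → V) : Mf D j (c • f) = c • Mf D j f := by
  induction j with
  | zero => rfl
  | succ j ih => rw [Mf, ih, od_smul]; rfl

lemma Mf_sum {ι : Type*} (s : Finset ι) (D : ℤ → Row) (j : ℕ) (f : ι → ℤ → V) :
    Mf D j (∑ k ∈ s, f k) = ∑ k ∈ s, Mf D j (f k) := by
  classical
  induction s using Finset.induction_on with
  | empty => simp [Mf_zero]
  | insert a s ha ih => rw [Finset.sum_insert ha, Finset.sum_insert ha, Mf_add, ih]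

/-- The chain of kernel elements. -/
lemma chain {D : ℤ → Row} {g : ℕ → ℤ → ℝ} {w : ℝ} (h0 : od D (g 0) = 0)
    (h1 : ∀ l, od D (g (l + 1)) = w • ev D (g l)) {j l : ℕ} (hl : l < j) :
    Mf D j (g l) = 0 := by
  induction j generalizing l with
  | zero => exact absurd hl (Nat.not_lt_zero _)
  | succ j ih =>
    cases l with
    | zero =>
      clear hl ih
      induction j with
      | zero => exact h0
      | succ j ih => rw [Mf, ih, od_zero]
    | succ l =>
      have h2 : od D (g (l + 1)) = ev D (w • g l) := by rw [ev_smul, h1]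
      rw [base_step h2 j, Mf_smul, ih (by omega), smul_zero, ev_zero]

/-- Parity. -/
lemma Mf_parity {D : ℤ → Row} {h : ℤ → ℝ} {r : ℤ} (h0 : ∀ s : ℤ, h (2 * s + r) = 0) (j : ℕ) :
    ∀ s : ℤ, Mf D j h (2 * s + r + j) = 0 := by
  induction j with
  | zero =>
    intro s
    show h (2 * s + r + ((0 : ℕ) : ℤ)) = 0
    rw [Nat.cast_zero, add_zero]
    exact h0 s
  | succ j ih =>
    intro s
    show od (Ds D j) (Mf D j h) _ = 0
    have e1 : 2 * s + r + ((j + 1 : ℕ) : ℤ) - 1 = 2 * s + r + j := by push_cast; ring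
    have e2 : 2 * s + r + ((j + 1 : ℕ) : ℤ) + 1 = 2 * (s + 1) + r + j := by push_cast; ring
    rw [od, e1, e2, ih s, ih (s + 1)]
    simp

/-- A linear functional commutes with the operators. -/
lemma Mf_dot (D : ℤ → Row) (j : ℕ) (c : Fin 4 → ℝ) (a : ℤ → Fin 4 → ℝ) (i : ℤ) :
    Mf D j (fun k => c ⬝ᵥ a k) i = c ⬝ᵥ Mf D j a i := by
  induction j generalizing i with
  | zero => rfl
  | succ j ih =>
    show od (Ds D j) (Mf D j fun k => c ⬝ᵥ a k) i = c ⬝ᵥ od (Ds D j) (Mf D j a) i
    simp only [od, ih, dotProduct_add, dotProduct_smul]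

end Ops

/-! ### Continuity -/

section Cont

lemma continuous_next {D : ℝ → ℤ → Row} (hD : ∀ i k, Continuous fun t => D t i k) (i : ℤ)
    (k : Fin 5) : Continuous fun t => next (D t) i k := by
  have h1 : Continuous fun t => sysM (D t) i 0 := by
    refine continuous_matrix fun a b => ?_
    fin_cases a <;> fin_cases b <;> simp [sysM] <;> first | exact continuous_const | exact hD _ _ |
      exact (hD _ _).neg
  have h2 : Continuous fun t => (sysM (D t) i 0).adjugate := h1.matrix_adjugate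
  exact (continuous_apply 4).comp ((continuous_apply k).comp h2)

lemma continuous_Ds {D : ℝ → ℤ → Row} (hD : ∀ i k, Continuous fun t => D t i k) (j : ℕ) :
    ∀ i k, Continuous fun t => Ds (D t) j i k := by
  induction j with
  | zero => exact hD
  | succ j ih => exact fun i k => continuous_next ih i k

lemma continuous_Mf {D : ℝ → ℤ → Row} (hD : ∀ i k, Continuous fun t => D t i k)
    (a : ℤ → Fin 4 → ℝ) (j : ℕ) : ∀ i, Continuous fun t => Mf (D t) j a i := by
  induction j with
  | zero => intro i; exact continuous_const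
  | succ j ih =>
    intro i
    exact ((continuous_Ds hD j i 1).smul (ih (i - 1))).add
      ((continuous_Ds hD j i 3).smul (ih (i + 1)))

end Cont

end Q96.DV
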